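import Pool.Agent.Lib.MP_72b45c_co.Q.D4
import Pool.Agent.Lib.MP_72b45c_co.Q.A4

/-!
MP_72b45c_co: the logarithm of the number of excluded minors with at most `e` edges for the closed
orientable surface of genus `g` has exact order `e + g log g`, uniformly for `3 g ≤ e ≤ C g ^ 2`; in
particular there are at least `2 ^ (g ^ 2 / 40)` excluded minors with at most `8 (g + 1) ^ 2` edges for
all large `g`.
-/

namespace Pool.Agent.Results.MP_72b45c_co.ExactOrder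

open Pool.Agent.Lib.MP_72b45c_co Pool.Agent.Lib.MP_72b45c_co.Q

theorem result :
    (∀ C : ℝ, 0 < C → ∃ c C' : ℝ, 0 < c ∧ 0 < C' ∧ ∃ g₀ : ℕ, ∀ g ≥ g₀, ∀ e : ℕ, 3 * g ≤ e →
      (e : ℝ) ≤ C * (g : ℝ) ^ 2 →
      (ObsUpTo g e).Finite ∧
      (2 : ℝ) ^ (c * (e + g * Real.log g)) ≤ (ObsUpTo g e).ncard ∧
      ((ObsUpTo g e).ncard : ℝ) ≤ (2 : ℝ) ^ (C' * (e + g * Real.log g))) ∧
    ∃ g₀ : ℕ, ∀ g ≥ g₀,
      (2 : ℝ) ^ ((g : ℝ) ^ 2 / 40) ≤ (ObsUpTo g (8 * (g + 1) ^ 2)).ncard ∧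
      ((Obs g).Finite → (2 : ℝ) ^ ((g : ℝ) ^ 2 / 40) ≤ (Obs g).ncard) := by
  have hobs : ∀ h, 2 ≤ h → ∀ u, Red (4 * h) u → IsObstruction (h - 1) (FG (4 * h) u) ∧
      Nat.card (FG (4 * h) u).edgeSet = 8 * h ^ 2 - 2 * h :=
    fun h hh u hu => ⟨obstruction hh hu, card_edgeSet_FG hh hu⟩
  refine ⟨fun C hC => ?_, ?_⟩
  · obtain ⟨c, C', hc, hC', g₀, h⟩ := two_parameter hobs C hC
    exact ⟨c, C', hc, hC', g₀, fun g hg e he he' =>
      ⟨obsUpTo_finite g e, (h g hg e he he').1, (h g hg e he he').2⟩⟩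
  · obtain ⟨g₀, h⟩ := lower_arith
    refine ⟨max g₀ 1, fun g hg => ?_⟩
    have h1 : (2 : ℝ) ^ ((g : ℝ) ^ 2 / 40) ≤ (ObsUpTo g (8 * (g + 1) ^ 2)).ncard := by
      refine h g (le_trans (le_max_left _ _) hg) _ fun m hm => ?_
      have h2 := lower_nat (fun h hh u hu =>
        obsUpTo_mono _ (Nat.sub_le _ _) (mem_obsUpTo hh hu)) (g + 1) m
        (by have := le_trans (le_max_right _ _) hg; omega) hm
      simpa using h2
    refine ⟨h1, fun hfin => h1.trans ?_⟩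
    exact_mod_cast Set.ncard_le_ncard (obsUpTo_subset g _) hfin

end Pool.Agent.Results.MP_72b45c_co.ExactOrder
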