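import Pool.Agent.Lib.MP_72b45c_co.Sharp

/-!
MP_72b45c_co: the number of excluded minors for the closed orientable surface of genus `g` is at
least `g ^ ((2 - o(1)) g)`, and the excluded minors with at most `e` edges number
`g ^ ((2 + o(1)) g)` for `3 g ≤ e = o(g log g)`.
-/

namespace Pool.Agent.Results.MP_72b45c_co.LinearSizeGrowth

open Pool.Agent.Lib.MP_72b45c_co

theorem result :
    (∀ g e : ℕ, (ObsUpTo g e).Finite ∧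
      (ObsUpTo g e).ncard ≤ (2 * e + 1) ^ 4 * (54 ^ (2 * e) * (2 * g + 1) ^ (2 * g))) ∧
    ∀ ε : ℝ, 0 < ε → ∃ δ : ℝ, 0 < δ ∧ ∃ g₀ : ℕ, ∀ g ≥ g₀,
      (∀ e : ℕ, 3 * g ≤ e → (g : ℝ) ^ ((2 - ε) * g) ≤ (ObsUpTo g e).ncard) ∧
      (∀ e : ℕ, (e : ℝ) ≤ δ * g * Real.log g →
        ((ObsUpTo g e).ncard : ℝ) ≤ (g : ℝ) ^ ((2 + ε) * g)) ∧
      ((Obs g).Finite → (g : ℝ) ^ ((2 - ε) * g) ≤ (Obs g).ncard) :=
  ⟨fun g e => ⟨obsUpTo_finite g e, obsUpTo_ncard_le g e⟩, fun ε hε => sharp ε hε⟩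

end Pool.Agent.Results.MP_72b45c_co.LinearSizeGrowth
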