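import Pool.Agent.Lib.MP_72b45c_co.Q.F2

/-!
MP_72b45c_co: every reduced word of the longest element of the symmetric group `S_{4h}` (every simple
arrangement of `4h` pseudolines with a marked cell), `h ≥ 2`, gives an excluded minor for the surface
of genus `h - 1` with `8h² - 2h` edges: the graph of the black cells.
-/

namespace Pool.Agent.Results.MP_72b45c_co.ReducedWords

open Pool.Agent.Lib.MP_72b45c_co Pool.Agent.Lib.MP_72b45c_co.Q

theorem result :
    (∀ h : ℕ, 2 ≤ h → ∀ u : List ℕ, Red (4 * h) u → IsObstruction (h - 1) (FG (4 * h) u) ∧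
      Nat.card (FG (4 * h) u).edgeSet = 8 * h ^ 2 - 2 * h) ∧
    ∀ n : ℕ, ∃ u, Red n u :=
  theoremA

end Pool.Agent.Results.MP_72b45c_co.ReducedWords
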